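import Pool.Agent.K3h83.IN.Stm

/-! The central case assembled. -/

set_option autoImplicit false

open scoped BigOperators Classical

noncomputable section

namespace Pool.Agent.K3h3.IN

open Pool.Agent.Helper884 Pool.Agent.K3h3.KB Pool.Agent.K3h3.MK Pool.Agent.K3h83.IN
open Pool.Agent.H254R3.IN (IsIrr mem_Irr)
open IC (Irr)

theorem finite_hom (A : Type) [Group A] [Finite A] : Finite (A →* ℂˣ) := by
  have h0 : NeZero (Nat.card A) := ⟨Nat.card_pos.ne'⟩
  refine Finite.of_injective (β := A → rootsOfUnity (Nat.card A) ℂ)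
    (fun f a => ⟨f a, ?_⟩) ?_
  · rw [mem_rootsOfUnity, ← map_pow, pow_card_eq_one', map_one]
  · intro f g h
    ext a
    have := congrFun h a
    exact congrArg (fun z : rootsOfUnity (Nat.card A) ℂ => ((z : ℂˣ) : ℂ)) this

theorem t_S4 (ha : S4a) (hb : S4b) (hc : S4c) (hd : S4d) : S4 := by
  intro p _ G _ _ Z H hZ hH nu hyp
  let cg : CommGroup Z := { (inferInstance : Group Z) with
    mul_comm := fun a b => Subtype.ext ((Subgroup.mem_center_iff.mp (hZ b.2)) a) }
  have : Finite (Z →* ℂˣ) := finite_hom Z
  have := Fintype.ofFinite Z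
  set D : (Z →* ℂˣ) → RR p := fun mu =>
    wo (cl p) Z.subtype (fun a => ((mu a : ℂˣ) : ℂ)) -
      wo (cl p) (Subgroup.inclusion hH) (fun a => ((mu a : ℂˣ) : ℂ)) with hD
  have key : D nu = 0 := by
    refine hc (Z →* ℂˣ) (RR p) ?_ D ?_ nu ?_
    · intro n r hn hr
      apply natCast_mul_inj p hn
      rw [mul_zero, ← nsmul_eq_mul, hr]
    · intro x n hn
      have hm : 0 < orderOf x := orderOf_pos x
      simp only [hD]
      rw [hb _ (cl p) Z G Z.subtype x (orderOf x) n hm (pow_orderOf_eq_one x) hn,
        hb _ (cl p) Z H (Subgroup.inclusion hH) x (orderOf x) n hm (pow_orderOf_eq_one x) hn]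
    · intro x hx
      have hker : nu.ker ≤ x.ker := by
        obtain ⟨k, rfl⟩ := Subgroup.mem_zpowers_iff.mp hx
        intro a ha
        rw [MonoidHom.mem_ker] at ha ⊢
        have : (nu ^ k) a = (nu a) ^ k := rfl
        rw [this, ha, one_zpow]
      set K : Subgroup G := x.ker.map Z.subtype with hK
      have hKZ : K ≤ Z := by
        intro y hy
        obtain ⟨z, _, rfl⟩ := hy
        exact z.2
      have hKn : K.Normal := by
        constructor
        intro k hk g
        have hc1 := Subgroup.mem_center_iff.mp (hZ (hKZ hk)) g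
        have : g * k * g⁻¹ = k := by rw [hc1, mul_inv_cancel_right]
        rw [this]; exact hk
      have h1 := hyp K hKZ (Subgroup.map_mono hker)
      have h2 := ha _ (cl p) Z G (G ⧸ K) Z.subtype Subtype.val_injective
        (by rw [Subgroup.range_subtype]; exact hZ) x.ker (QuotientGroup.mk' K)
        (QuotientGroup.mk'_surjective K) (QuotientGroup.ker_mk' K)
      have h3 := ha _ (cl p) Z H (H.map (QuotientGroup.mk' K)) (Subgroup.inclusion hH)
        (Subgroup.inclusion_injective hH)
        (by
          rintro _ ⟨z, rfl⟩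
          rw [Subgroup.mem_center_iff]
          intro g
          exact Subtype.ext (Subgroup.mem_center_iff.mp (hZ z.2) g)) x.ker
        ((QuotientGroup.mk' K).subgroupMap H)
        ((QuotientGroup.mk' K).subgroupMap_surjective H)
        (by
          ext h
          rw [MonoidHom.mem_ker]
          constructor
          · intro hh
            have hh' : QuotientGroup.mk' K (h : G) = 1 := congrArg Subtype.val hh
            rw [QuotientGroup.mk'_apply, QuotientGroup.eq_one_iff] at hh'
            obtain ⟨z, hz, hzh⟩ := hh'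
            exact ⟨z, hz, Subtype.ext hzh⟩
          · rintro ⟨z, hz, rfl⟩
            apply Subtype.ext
            show QuotientGroup.mk' K ((Subgroup.inclusion hH z : H) : G) = 1
            rw [QuotientGroup.mk'_apply, QuotientGroup.eq_one_iff]
            exact ⟨z, hz, rfl⟩)
      rw [h2, h3, ← sub_eq_zero, ← Finset.sum_sub_distrib] at h1
      rw [← h1]
      rw [← finsum_mem_coe_finset]
      refine finsum_mem_eq_of_bijOn (fun (y : Z →* ℂˣ) => fun a : Z => ((y a : ℂˣ) : ℂ))
        ⟨?_, ?_, ?_⟩ (fun y _ => rfl)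
      · intro y hy
        simp only [Finset.coe_filter, Set.mem_ofPred_eq]
        refine ⟨mem_Irr.mpr (lin_irr y), ?_⟩
        intro k hk
        obtain ⟨m, rfl⟩ := Subgroup.mem_zpowers_iff.mp hy
        rw [MonoidHom.mem_ker] at hk
        have : (x ^ m) k = (x k) ^ m := rfl
        simp only [this, hk, one_zpow, Units.val_one]
      · intro y _ y' _ h
        ext a
        exact congrFun h a
      · intro θ hθ
        simp only [Finset.coe_filter, Set.mem_ofPred_eq] at hθ
        obtain ⟨hθ1, hθ2⟩ := hθ
        obtain ⟨l, rfl⟩ := lin_of_comm (mem_Irr.mp hθ1)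
        refine ⟨l, hd Z x l ?_, rfl⟩
        intro k hk
        rw [MonoidHom.mem_ker]
        exact Units.ext (hθ2 k hk)
  simpa [hD, sub_eq_zero] using key

end Pool.Agent.K3h3.IN
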